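import Pool.Agent.H73.CTG.Stmts

set_option autoImplicit false

open Set Filter Topology

namespace Pool.CTG

namespace LvhX

variable {n : ℕ} {G : E n → ℝ}

theorem lvh_nbhd {z : E n} (hz : z ≠ 0) : {y : E n | y ≠ 0} ∈ 𝓝 z := isOpen_ne.mem_nhds hz

theorem lvh_c2 (h : ContDiffOn ℝ 2 G {z | z ≠ 0}) {z : E n} (hz : z ≠ 0) : ContDiffAt ℝ 2 G z :=
  h.contDiffAt (lvh_nbhd hz)

theorem lvh_c1 (h : ContDiffOn ℝ 2 G {z | z ≠ 0}) {z : E n} (hz : z ≠ 0) :
    ContDiffAt ℝ 1 (fderiv ℝ G) z :=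
  (lvh_c2 h hz).fderiv_right (by norm_num)

theorem lvh_c0 (h : ContDiffOn ℝ 2 G {z | z ≠ 0}) {z : E n} (hz : z ≠ 0) :
    ContinuousAt (fderiv ℝ (fderiv ℝ G)) z := by
  have h1 : ContDiffAt ℝ 0 (fderiv ℝ (fderiv ℝ G)) z := (lvh_c1 h hz).fderiv_right (by norm_num)
  exact h1.continuousAt

theorem lvh_d1 (h : ContDiffOn ℝ 2 G {z | z ≠ 0}) {z : E n} (hz : z ≠ 0) :
    DifferentiableAt ℝ G z := (lvh_c2 h hz).differentiableAt (by norm_num)

theorem lvh_d2 (h : ContDiffOn ℝ 2 G {z | z ≠ 0}) {z : E n} (hz : z ≠ 0) :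
    DifferentiableAt ℝ (fderiv ℝ G) z := (lvh_c1 h hz).differentiableAt (by norm_num)

theorem lvh_key (h : ContDiffOn ℝ 2 G {z | z ≠ 0}) {z : E n} (hz : z ≠ 0) (u w : E n) :
    fderiv ℝ (fun y => fderiv ℝ G y u) z w = fderiv ℝ (fderiv ℝ G) z w u := by
  have h1 := (lvh_d2 h hz).hasFDerivAt.clm_apply (hasFDerivAt_const u z)
  rw [h1.fderiv]
  simp

theorem lvh_L (h : ContDiffOn ℝ 2 G {z | z ≠ 0}) {z : E n} (hz : z ≠ 0) (v : E n) :
    L G z v = fderiv ℝ (fderiv ℝ G) z v v +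
      fderiv ℝ (fderiv ℝ G) z (Complex.I • v) (Complex.I • v) := by
  unfold L
  rw [lvh_key h hz, lvh_key h hz]

theorem lvh_chain {A B : E n → ℝ} {c : ℂ} {κ : ℝ} {z : E n} (hz : z ≠ 0)
    (hA : DifferentiableAt ℝ A (c • z)) (h : ∀ y : E n, y ≠ 0 → A (c • y) = B y + κ) (w : E n) :
    fderiv ℝ A (c • z) (c • w) = fderiv ℝ B z w := by
  have h0 : HasFDerivAt (fun y : E n => c • y) (c • ContinuousLinearMap.id ℝ (E n)) z :=
    (hasFDerivAt_id z).const_smul c
  have h1 : HasFDerivAt (fun y : E n => A (c • y))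
      ((fderiv ℝ A (c • z)).comp (c • ContinuousLinearMap.id ℝ (E n))) z :=
    hA.hasFDerivAt.comp z h0
  have h2 := h1.sub_const κ
  have h3 : B =ᶠ[𝓝 z] fun y => A (c • y) - κ := by
    filter_upwards [lvh_nbhd hz] with y hy
    rw [h y hy]
    ring
  rw [(h2.congr_of_eventuallyEq h3).fderiv]
  rfl

theorem lvh_line (h : ContDiffOn ℝ 2 G {z | z ≠ 0}) {z : E n} (hz : z ≠ 0) (w : E n) (F : ℝ → ℝ)
    (F' : ℝ) (hF : HasDerivAt F F' 0) (he : ∀ᶠ t : ℝ in 𝓝 0, G (z + t • w) = F t) :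
    fderiv ℝ G z w = F' := by
  have h1 : HasDerivAt (fun t : ℝ => G (z + t • w)) (fderiv ℝ G z w) 0 :=
    (lvh_d1 h hz).hasFDerivAt.hasLineDerivAt w
  have h2 : HasDerivAt (fun t : ℝ => G (z + t • w)) F' 0 := hF.congr_of_eventuallyEq he
  exact h1.unique h2

theorem lvh_two (h : ContDiffOn ℝ 2 G {z | z ≠ 0})
    (gh : ∀ (c : ℂ) (z : E n), c ≠ 0 → z ≠ 0 → G (c • z) = G z + 2 * Real.log ‖c‖) {z : E n}
    (hz : z ≠ 0) : fderiv ℝ G z z = 2 := by
  have hF : HasDerivAt (fun t : ℝ => G z + 2 * Real.log (1 + t)) 2 0 := by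
    have h1 : HasDerivAt (fun t : ℝ => 1 + t) 1 0 := by
      simpa using (hasDerivAt_id (0 : ℝ)).const_add 1
    have h2 := ((h1.log (by norm_num)).const_mul 2).const_add (G z)
    simpa using h2
  refine lvh_line h hz z _ 2 hF ?_
  filter_upwards [Ioo_mem_nhds (show (-1 : ℝ) < 0 by norm_num) (show (0 : ℝ) < 1 by norm_num)]
    with t ht
  have h3 : 0 < 1 + t := by linarith [ht.1]
  have h4 : z + t • z = ((1 + t : ℝ) : ℂ) • z := by
    rw [Complex.ofReal_add, add_smul, Complex.ofReal_one, one_smul]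
    rfl
  have h5 : ((1 + t : ℝ) : ℂ) ≠ 0 := by
    rw [Ne, Complex.ofReal_eq_zero]
    exact h3.ne'
  rw [h4, gh _ z h5 hz, Complex.norm_real, Real.norm_of_nonneg h3.le]

theorem lvh_zero (h : ContDiffOn ℝ 2 G {z | z ≠ 0})
    (gh : ∀ (c : ℂ) (z : E n), c ≠ 0 → z ≠ 0 → G (c • z) = G z + 2 * Real.log ‖c‖) {z : E n}
    (hz : z ≠ 0) : fderiv ℝ G z (Complex.I • z) = 0 := by
  have hF : HasDerivAt (fun t : ℝ => G z + Real.log (1 + t ^ 2)) 0 0 := by
    have h1 : HasDerivAt (fun t : ℝ => 1 + t ^ 2) 0 0 := by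
      have h2 := (hasDerivAt_pow 2 (0 : ℝ)).const_add 1
      simpa using h2
    have h2 := (h1.log (by norm_num)).const_add (G z)
    simpa using h2
  refine lvh_line h hz _ _ 0 hF (Eventually.of_forall fun t => ?_)
  have h4 : z + t • (Complex.I • z) = (1 + (t : ℂ) * Complex.I) • z := by
    rw [add_smul, one_smul, mul_smul]
    rfl
  have h6 : ‖(1 + (t : ℂ) * Complex.I)‖ ^ 2 = 1 + t ^ 2 := by
    rw [Complex.sq_norm, Complex.normSq_apply]
    simp
    ring
  have h5 : (1 + (t : ℂ) * Complex.I) ≠ 0 := by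
    intro h0
    rw [h0, norm_zero] at h6
    nlinarith [sq_nonneg t]
  rw [h4, gh _ z h5 hz, ← h6, Real.log_pow]
  norm_num

theorem lvh_nn (h : ContDiffOn ℝ 2 G {z | z ≠ 0})
    (gh : ∀ (c : ℂ) (z : E n), c ≠ 0 → z ≠ 0 → G (c • z) = G z + 2 * Real.log ‖c‖) {z : E n}
    (hz : z ≠ 0) : L G z z = 0 := by
  rw [lvh_L h hz]
  have hd := (lvh_d2 h hz).hasFDerivAt
  have e1 : fderiv ℝ (fderiv ℝ G) z z z = -2 := by
    have h1 := hd.clm_apply (hasFDerivAt_id z)
    have h2 : (fun y : E n => fderiv ℝ G y (id y)) =ᶠ[𝓝 z] fun _ => (2 : ℝ) := by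
      filter_upwards [lvh_nbhd hz] with y hy
      exact lvh_two h gh hy
    have h3 := h1.unique ((hasFDerivAt_const (2 : ℝ) z).congr_of_eventuallyEq h2)
    have h4 := congrArg (fun A : E n →L[ℝ] ℝ => A z) h3
    simp at h4
    rw [lvh_two h gh hz] at h4
    linarith
  have e2 : fderiv ℝ (fderiv ℝ G) z (Complex.I • z) (Complex.I • z) = 2 := by
    have h0 : HasFDerivAt (fun y : E n => Complex.I • y)
        (Complex.I • ContinuousLinearMap.id ℝ (E n)) z := (hasFDerivAt_id z).const_smul Complex.I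
    have h1 := hd.clm_apply h0
    have h2 : (fun y : E n => fderiv ℝ G y (Complex.I • y)) =ᶠ[𝓝 z] fun _ => (0 : ℝ) := by
      filter_upwards [lvh_nbhd hz] with y hy
      exact lvh_zero h gh hy
    have h3 := h1.unique ((hasFDerivAt_const (0 : ℝ) z).congr_of_eventuallyEq h2)
    have h4 := congrArg (fun A : E n →L[ℝ] ℝ => A (Complex.I • z)) h3
    have h5 : Complex.I • (Complex.I • z) = -z := by
      rw [smul_smul, Complex.I_mul_I, neg_one_smul]
    have h6 : fderiv ℝ G z (Complex.I • (Complex.I • z)) +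
        fderiv ℝ (fderiv ℝ G) z (Complex.I • z) (Complex.I • z) = 0 := h4
    rw [h5, map_neg, lvh_two h gh hz] at h6
    linarith
  rw [e1, e2]
  norm_num

end LvhX

open LvhX in
theorem LVH_thm : LVHStmt := by
  intro n f d G hH
  have g2 := hH.g2
  have gh := hH.gh
  have hfirst : ∀ (c : ℂ) (z v : E n), c ≠ 0 → z ≠ 0 →
      fderiv ℝ G (c • z) (c • v) = fderiv ℝ G z v := by
    intro c z v hc hz
    exact lvh_chain hz (lvh_d1 g2 (smul_ne_zero hc hz)) (fun y hy => gh c y hc hy) v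
  refine ⟨?_, ?_, ?_, ?_, ?_⟩
  · intro c z v hc hz
    refine ⟨?_, hfirst c z v hc hz⟩
    have hsec : ∀ u w : E n, fderiv ℝ (fun y => fderiv ℝ G y (c • u)) (c • z) (c • w) =
        fderiv ℝ (fun y => fderiv ℝ G y u) z w := by
      intro u w
      have hA : DifferentiableAt ℝ (fun y => fderiv ℝ G y (c • u)) (c • z) :=
        ((lvh_d2 g2 (smul_ne_zero hc hz)).hasFDerivAt.clm_apply
          (hasFDerivAt_const (c • u) (c • z))).differentiableAt
      refine lvh_chain (κ := 0) hz hA (fun y hy => ?_) w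
      rw [add_zero]
      exact hfirst c y u hc hy
    unfold L
    rw [smul_comm Complex.I c v, hsec, hsec]
  · intro z hz
    exact ⟨lvh_nn g2 gh hz, lvh_two g2 gh hz, lvh_zero g2 gh hz⟩
  · intro c z v hz
    rw [lvh_L g2 hz, lvh_L g2 hz]
    have h1 : c • v = (c.re : ℝ) • v + (c.im : ℝ) • (Complex.I • v) := by
      conv_lhs => rw [← Complex.re_add_im c]
      rw [add_smul, mul_smul]
      rfl
    have h2 : Complex.I • (c • v) = (c.re : ℝ) • (Complex.I • v) - (c.im : ℝ) • v := by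
      rw [h1, smul_add, smul_comm Complex.I (c.re : ℝ) v,
        smul_comm Complex.I (c.im : ℝ) (Complex.I • v), smul_smul Complex.I Complex.I v,
        Complex.I_mul_I, neg_one_smul, smul_neg]
      rw [sub_eq_add_neg]
    have h3 : ‖c‖ ^ 2 = c.re ^ 2 + c.im ^ 2 := by
      rw [Complex.sq_norm, Complex.normSq_apply]
      ring
    rw [h2, h1, h3]
    simp only [map_add, map_sub, map_smul, ContinuousLinearMap.add_apply,
      ContinuousLinearMap.sub_apply, ContinuousLinearMap.smul_apply, smul_eq_mul]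
    ring
  · intro z v w hz
    rw [lvh_L g2 hz, lvh_L g2 hz, lvh_L g2 hz, lvh_L g2 hz]
    simp only [smul_add, smul_sub, map_add, map_sub, ContinuousLinearMap.add_apply,
      ContinuousLinearMap.sub_apply]
    ring
  · have hc : ContinuousOn (fun p : E n × E n => fderiv ℝ (fderiv ℝ G) p.1 p.2 p.2 +
        fderiv ℝ (fderiv ℝ G) p.1 (Complex.I • p.2) (Complex.I • p.2)) {p | p.1 ≠ 0} := by
      have h0 : ContinuousOn (fun p : E n × E n => fderiv ℝ (fderiv ℝ G) p.1) {p | p.1 ≠ 0} := by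
        intro p hp
        have h1 : ContinuousAt (fun p : E n × E n => fderiv ℝ (fderiv ℝ G) p.1) p :=
          ContinuousAt.comp (lvh_c0 g2 hp) continuousAt_fst
        exact h1.continuousWithinAt
      have h2 : ContinuousOn (fun p : E n × E n => p.2) {p | p.1 ≠ 0} := continuousOn_snd
      have h3 : ContinuousOn (fun p : E n × E n => Complex.I • p.2) {p | p.1 ≠ 0} :=
        continuousOn_snd.const_smul Complex.I
      exact ((h0.clm_apply h2).clm_apply h2).add ((h0.clm_apply h3).clm_apply h3)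
    refine hc.congr fun p hp => ?_
    exact lvh_L g2 hp p.2

end Pool.CTG
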